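import Pool.Agent.W770.KP.Stm

/-! Project KP: interpolation with slack, general direction. -/

set_option autoImplicit false

namespace Pool.Agent.W45.KP

open Pool.Agent.W770.KP
open scoped Classical

/-- a linear automorphism with prescribed value -/
theorem exists_equiv {F V : Type} [Field F] [AddCommGroup V] [Module F V] {a u : V}
    (ha : a ≠ 0) (hu : u ≠ 0) : ∃ L : V ≃ₗ[F] V, L a = u := by
  have : FiniteDimensional F (Submodule.span F ({a} : Set V)) :=
    FiniteDimensional.span_singleton F a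
  obtain ⟨g, hg⟩ := Submodule.exists_linearEquiv_restrict_eq
    ((LinearEquiv.toSpanNonzeroSingleton F V a ha).symm ≪≫ₗ
      LinearEquiv.toSpanNonzeroSingleton F V u hu)
  refine ⟨g, ?_⟩
  have h1 := hg (LinearEquiv.toSpanNonzeroSingleton F V a ha 1)
  rw [LinearEquiv.trans_apply, LinearEquiv.symm_apply_apply,
    LinearEquiv.toSpanNonzeroSingleton_one, LinearEquiv.toSpanNonzeroSingleton_one] at h1
  exact h1.symm

/-- the linear forms -/
noncomputable def lf {F : Type} [Field F] {n : ℕ} (L : (Fin n → F) →ₗ[F] (Fin n → F)) (i : Fin n) :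
    MvPolynomial (Fin n) F :=
  ∑ j, MvPolynomial.C (L (Pi.single j 1) i) * MvPolynomial.X j

theorem eval_lf {F : Type} [Field F] {n : ℕ} (L : (Fin n → F) →ₗ[F] (Fin n → F)) (i : Fin n)
    (z : Fin n → F) : MvPolynomial.eval z (lf L i) = L z i := by
  unfold lf
  rw [map_sum]
  have h1 : L z = ∑ j, z j • L (Pi.single j 1) := by
    conv_lhs => rw [pi_eq_sum_univ' z]
    rw [map_sum]
    refine Finset.sum_congr rfl fun j _ => ?_
    rw [map_smul]
  rw [h1, Finset.sum_apply]
  refine Finset.sum_congr rfl fun j _ => ?_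
  rw [map_mul, MvPolynomial.eval_C, MvPolynomial.eval_X, Pi.smul_apply, smul_eq_mul, mul_comm]

theorem deg_lf {F : Type} [Field F] {n : ℕ} (L : (Fin n → F) →ₗ[F] (Fin n → F)) (i : Fin n) :
    (lf L i).totalDegree ≤ 1 := by
  unfold lf
  refine (MvPolynomial.totalDegree_finsetSum _ _).trans (Finset.sup_le fun j _ => ?_)
  refine (MvPolynomial.totalDegree_mul _ _).trans ?_
  rw [MvPolynomial.totalDegree_C, MvPolynomial.totalDegree_X]

theorem deg_bind {F : Type} [Field F] {n : ℕ} (f : Fin n → MvPolynomial (Fin n) F)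
    (hf : ∀ i, (f i).totalDegree ≤ 1) (P : MvPolynomial (Fin n) F) :
    (MvPolynomial.bind₁ f P).totalDegree ≤ P.totalDegree := by
  have h1 : MvPolynomial.bind₁ f P = MvPolynomial.eval₂ MvPolynomial.C f P := rfl
  rw [h1, MvPolynomial.eval₂_eq']
  refine (MvPolynomial.totalDegree_finsetSum _ _).trans (Finset.sup_le fun d hd => ?_)
  refine (MvPolynomial.totalDegree_mul _ _).trans ?_
  rw [MvPolynomial.totalDegree_C, zero_add]
  refine (MvPolynomial.totalDegree_finsetProd _ _).trans ?_
  refine le_trans (Finset.sum_le_sum fun i _ => ?_) (?_ : ∑ i : Fin n, d i ≤ _)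
  · refine (MvPolynomial.totalDegree_pow _ _).trans ?_
    calc d i * (f i).totalDegree ≤ d i * 1 := Nat.mul_le_mul_left _ (hf i)
      _ = d i := mul_one _
  · have h2 := MvPolynomial.le_totalDegree hd
    rwa [Finsupp.sum_fintype _ _ (fun _ => rfl)] at h2

theorem eval_bind {F : Type} [Field F] {n : ℕ} (L : (Fin n → F) →ₗ[F] (Fin n → F))
    (P : MvPolynomial (Fin n) F) (z : Fin n → F) :
    MvPolynomial.eval z (MvPolynomial.bind₁ (lf L) P) = MvPolynomial.eval (L z) P := by
  have h1 := MvPolynomial.eval₂Hom_bind₁ (RingHom.id F) z (lf L) P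
  have h2 : (fun i => MvPolynomial.eval₂Hom (RingHom.id F) z (lf L i)) = L z := by
    funext i
    exact eval_lf L i z
  rw [h2] at h1
  exact h1

theorem ils : S_ILS0 → S_ILS := by
  intro h0 m F _ _ Z u hu d e hde he hZ
  have ha : (Fin.cons 1 0 : Fin (m + 1) → F) ≠ 0 := by
    intro h
    have h1 := congrFun h 0
    rw [Fin.cons_zero] at h1
    exact one_ne_zero h1
  obtain ⟨L, hL⟩ := exists_equiv (F := F) ha hu
  have hinj : Function.Injective fun z => L.symm z := L.symm.injective
  have hmem : ∀ w, w ∈ Z.image (fun z => L.symm z) ↔ L w ∈ Z := by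
    intro w
    rw [Finset.mem_image]
    constructor
    · rintro ⟨z, hz, rfl⟩
      rwa [LinearEquiv.apply_symm_apply]
    · intro h
      exact ⟨L w, h, L.symm_apply_apply w⟩
  have hcons : ∀ (t : F) (y : Fin m → F), (Fin.cons t y : Fin (m + 1) → F) =
      (Fin.cons 0 y : Fin (m + 1) → F) + t • (Fin.cons 1 0 : Fin (m + 1) → F) := by
    intro t y
    funext i
    refine Fin.cases ?_ (fun j => ?_) i
    · simp
    · simp
  obtain ⟨N, A, hA1, hA2, hA3⟩ := h0 m F (Z.image fun z => L.symm z) d e hde he (by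
    intro y
    have h1 : (Finset.univ.filter (fun t : F => (Fin.cons t y : Fin (m+1) → F) ∈
        Z.image fun z => L.symm z)) =
        Finset.univ.filter (fun t : F => L (Fin.cons 0 y) + t • u ∈ Z) := by
      refine Finset.filter_congr fun t _ => ?_
      rw [hmem, hcons t y, map_add, map_smul, hL]
    rw [h1]
    exact hZ _)
  rw [Finset.card_image_of_injective _ hinj] at hA2
  refine ⟨N, fun s => MvPolynomial.bind₁ (lf (L.symm : (Fin (m + 1) → F) →ₗ[F] _)) (A s),
    fun s => (deg_bind _ (deg_lf _) _).trans (hA1 s), hA2, fun c hc => hA3 c fun w hw => ?_⟩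
  rw [Finset.mem_image] at hw
  obtain ⟨z, hz, rfl⟩ := hw
  have h1 := hc z hz
  unfold lc at h1 ⊢
  rw [map_sum] at h1 ⊢
  rw [← h1]
  refine Finset.sum_congr rfl fun s _ => ?_
  rw [map_mul, map_mul, MvPolynomial.eval_C, MvPolynomial.eval_C, eval_bind]
  rfl

end Pool.Agent.W45.KP
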